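import Pool.Agent.W601.RP.Stm2

/-!
# RP-CIR: elementary facts on the circle
-/

set_option autoImplicit false

namespace Pool.Agent.W565.RP.Cir

open Pool.Agent.W601.RP

theorem n3 (r : ℝ) : ‖((r : ℝ) : TT)‖ ≤ |r| := by
  rw [UnitAddCircle.norm_eq]
  have h := round_le r 0
  simpa using h

theorem n2 (r : ℝ) (h1 : 1 / 4 ≤ r) (h2 : r ≤ 3 / 4) : 1 / 4 ≤ ‖((r : ℝ) : TT)‖ := by
  rw [UnitAddCircle.norm_eq, le_abs]
  rcases le_or_gt (round r) 0 with h | h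
  · left
    have : ((round r : ℤ) : ℝ) ≤ 0 := by exact_mod_cast h
    linarith
  · right
    have : (1 : ℝ) ≤ ((round r : ℤ) : ℝ) := by exact_mod_cast h
    linarith

theorem n1 (r : ℝ) (h1 : 0 ≤ r) (h2 : r ≤ 1 / 2) : ‖((r : ℝ) : TT)‖ = r := by
  apply le_antisymm
  · have h := n3 r
    rwa [abs_of_nonneg h1] at h
  · rw [UnitAddCircle.norm_eq, le_abs]
    rcases le_or_gt (round r) 0 with h | h
    · left
      have : ((round r : ℤ) : ℝ) ≤ 0 := by exact_mod_cast h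
      linarith
    · right
      have : (1 : ℝ) ≤ ((round r : ℤ) : ℝ) := by exact_mod_cast h
      linarith

theorem zs (k : ℤ) (r : ℝ) : k • ((r : ℝ) : TT) = (((k : ℝ) * r : ℝ) : TT) := by
  have h : (((k • r : ℝ)) : TT) = k • ((r : ℝ) : TT) := rfl
  rw [← h, zsmul_eq_mul]

theorem ns (k : ℕ) (r : ℝ) : k • ((r : ℝ) : TT) = (((k : ℝ) * r : ℝ) : TT) := by
  have h : (((k • r : ℝ)) : TT) = k • ((r : ℝ) : TT) := rfl
  rw [← h, nsmul_eq_mul]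

theorem ng (r : ℝ) : (((-r : ℝ)) : TT) = -((r : ℝ) : TT) := rfl

theorem int0 (k : ℤ) : (((k : ℝ)) : TT) = 0 := by
  rw [AddCircle.coe_eq_zero_iff]
  exact ⟨k, by simp⟩

/-- every element is plus or minus its norm -/
theorem rep (y : TT) : y = ((‖y‖ : ℝ) : TT) ∨ y = -((‖y‖ : ℝ) : TT) := by
  obtain ⟨x, rfl⟩ := QuotientAddGroup.mk_surjective y
  have h1 : ((x : ℝ) : TT) = ((x - round x : ℝ) : TT) := by
    have h2 : ((x - round x : ℝ) : TT) = ((x : ℝ) : TT) - (((round x : ℤ) : ℝ) : TT) := rfl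
    rw [h2, int0, sub_zero]
  have h3 : ‖((x : ℝ) : TT)‖ = |x - round x| := UnitAddCircle.norm_eq
  change ((x : ℝ) : TT) = ((‖((x : ℝ) : TT)‖ : ℝ) : TT) ∨
    ((x : ℝ) : TT) = -((‖((x : ℝ) : TT)‖ : ℝ) : TT)
  rw [h3]
  rcases abs_choice (x - round x) with h | h
  · left
    rw [h]
    exact h1
  · right
    rw [h, ng, neg_neg]
    exact h1

theorem n4 (y : TT) (m : ℕ) : ‖m • y‖ = ‖(((m : ℝ) * ‖y‖ : ℝ) : TT)‖ := by
  rcases rep y with h | h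
  · conv_lhs => rw [h, ns]
  · conv_lhs => rw [h, smul_neg, norm_neg, ns]

theorem half (y : TT) : ‖y‖ ≤ 1 / 2 := by
  obtain ⟨x, rfl⟩ := QuotientAddGroup.mk_surjective y
  have h3 : ‖((x : ℝ) : TT)‖ = |x - round x| := UnitAddCircle.norm_eq
  change ‖((x : ℝ) : TT)‖ ≤ 1 / 2
  rw [h3]
  exact abs_sub_round x

/-- the multiple -/
theorem mult (y : TT) (M : ℕ) (hM : 1 / 4 ≤ (M : ℝ) * ‖y‖) :
    ∃ m, 1 ≤ m ∧ m ≤ M ∧ 1 / 4 ≤ ‖m • y‖ := by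
  classical
  have hex : ∃ m : ℕ, 1 / 4 ≤ (m : ℝ) * ‖y‖ := ⟨M, hM⟩
  obtain ⟨m, hm1, hm2⟩ : ∃ m : ℕ, 1 / 4 ≤ (m : ℝ) * ‖y‖ ∧
      ∀ k < m, ¬ (1 / 4 ≤ (k : ℝ) * ‖y‖) :=
    ⟨Nat.find hex, Nat.find_spec hex, fun k hk => Nat.find_min hex hk⟩
  have hm0 : m ≠ 0 := by
    intro h0
    rw [h0, Nat.cast_zero, zero_mul] at hm1
    linarith
  have hmM : m ≤ M := by
    by_contra h
    exact hm2 M (by omega) hM
  refine ⟨m, by omega, hmM, ?_⟩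
  rw [n4]
  have h3 : ((m - 1 : ℕ) : ℝ) * ‖y‖ < 1 / 4 := not_le.1 (hm2 (m - 1) (by omega))
  have h4 : ((m - 1 : ℕ) : ℝ) = (m : ℝ) - 1 := by
    rw [Nat.cast_sub (by omega), Nat.cast_one]
  rw [h4] at h3
  have h5 := half y
  exact n2 _ hm1 (by linarith)

theorem part5 (n : ℕ) (y : TT) (hn : 1 ≤ n) (hy : n • y = 0) :
    ∃ a : ℕ, a < n ∧ y = ((((a : ℝ) / (n : ℝ)) : ℝ) : TT) := by
  obtain ⟨x, rfl⟩ := QuotientAddGroup.mk_surjective y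
  change n • ((x : ℝ) : TT) = 0 at hy
  rw [ns, AddCircle.coe_eq_zero_iff] at hy
  obtain ⟨k, hk⟩ := hy
  have hk' : (k : ℝ) = (n : ℝ) * x := by simpa using hk
  have hn0 : (n : ℝ) ≠ 0 := by
    have : (0 : ℝ) < (n : ℝ) := by exact_mod_cast hn
    exact this.ne'
  have hx : x = (k : ℝ) / n := by
    rw [eq_div_iff hn0, hk']
    ring
  refine ⟨(k % (n : ℤ)).toNat, ?_, ?_⟩
  · have h1 := Int.emod_lt_of_pos k (show (0 : ℤ) < n by exact_mod_cast hn)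
    have h2 := Int.emod_nonneg k (show (n : ℤ) ≠ 0 by omega)
    omega
  · have h2 := Int.emod_nonneg k (show (n : ℤ) ≠ 0 by omega)
    have h3 : (((k % (n : ℤ)).toNat : ℕ) : ℝ) = ((k % (n : ℤ) : ℤ) : ℝ) := by
      have h4 : (((k % (n : ℤ)).toNat : ℕ) : ℤ) = k % (n : ℤ) := Int.toNat_of_nonneg h2
      exact_mod_cast h4
    have h5 : (k : ℝ) = (n : ℝ) * ((k / (n : ℤ) : ℤ) : ℝ) + ((k % (n : ℤ) : ℤ) : ℝ) := by
      exact_mod_cast (Int.mul_ediv_add_emod k n).symm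
    change ((x : ℝ) : TT) = _
    have h6 : x = ((k / (n : ℤ) : ℤ) : ℝ) + (((k % (n : ℤ)).toNat : ℕ) : ℝ) / (n : ℝ) := by
      rw [hx, h3, h5]
      field_simp
    rw [h6]
    have h7 : ((((k / (n : ℤ) : ℤ) : ℝ) + (((k % (n : ℤ)).toNat : ℕ) : ℝ) / (n : ℝ) : ℝ) : TT) =
      ((((k / (n : ℤ) : ℤ) : ℝ)) : TT) + (((((k % (n : ℤ)).toNat : ℕ) : ℝ) / (n : ℝ) : ℝ) : TT) := rfl
    rw [h7, int0, zero_add]

theorem kap (κ : ℤ) (r : ℝ) : ‖κ • ((r : ℝ) : TT)‖ = ‖((|(κ : ℝ)| * r : ℝ) : TT)‖ := by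
  rw [zs]
  rcases abs_choice (κ : ℝ) with h | h
  · rw [h]
  · rw [h, neg_mul, ng, norm_neg]

/-- the choice `a = ⌈n / (4 |κ|)⌉` -/
theorem part4 (n : ℕ) (κ : ℤ) (hn : 2 ≤ n) (h0 : κ ≠ 0) (h1 : -(n : ℤ) < 2 * κ) (h2 : 2 * κ ≤ n) :
    ∃ a : ℕ, a < n ∧ (a : ℝ) / (n : ℝ) ≤ 1 / (4 * |(κ : ℝ)|) + 1 / (n : ℝ) ∧
      1 / 4 ≤ ‖κ • ((((a : ℝ) / (n : ℝ)) : ℝ) : TT)‖ := by
  have hk1 : (1 : ℝ) ≤ |(κ : ℝ)| := by
    have : (1 : ℤ) ≤ |κ| := Int.one_le_abs h0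
    exact_mod_cast this
  have hk0 : (0 : ℝ) < |(κ : ℝ)| := by linarith
  have hkn : |(κ : ℝ)| ≤ (n : ℝ) / 2 := by
    have h3 : 2 * |κ| ≤ (n : ℤ) := by
      rcases abs_choice κ with h | h <;> rw [h] <;> omega
    have h4 : 2 * |(κ : ℝ)| ≤ (n : ℝ) := by exact_mod_cast h3
    linarith
  have hn2 : (2 : ℝ) ≤ (n : ℝ) := by exact_mod_cast hn
  have hn0 : (0 : ℝ) < (n : ℝ) := by linarith
  set q : ℝ := (n : ℝ) / (4 * |(κ : ℝ)|) with hq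
  have hq0 : 0 ≤ q := by positivity
  have ha1 : q ≤ (⌈q⌉₊ : ℝ) := Nat.le_ceil q
  have ha2 : (⌈q⌉₊ : ℝ) < q + 1 := Nat.ceil_lt_add_one hq0
  have hqn : q ≤ (n : ℝ) / 4 := by
    rw [hq]
    apply div_le_div_of_nonneg_left hn0.le (by norm_num) (by linarith)
  refine ⟨⌈q⌉₊, ?_, ?_, ?_⟩
  · have h5 : (⌈q⌉₊ : ℝ) < (n : ℝ) := by linarith
    exact_mod_cast h5
  · have h6 : 1 / (4 * |(κ : ℝ)|) + 1 / (n : ℝ) = (q + 1) / n := by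
      rw [hq]
      field_simp
    rw [h6]
    exact div_le_div_of_nonneg_right ha2.le hn0.le
  · rw [kap]
    have h7 : |(κ : ℝ)| * q / n = 1 / 4 := by
      rw [hq]
      field_simp
    apply n2
    · calc (1 : ℝ) / 4 = |(κ : ℝ)| * q / n := h7.symm
        _ ≤ |(κ : ℝ)| * (⌈q⌉₊ : ℝ) / n :=
          div_le_div_of_nonneg_right (mul_le_mul_of_nonneg_left ha1 hk0.le) hn0.le
        _ = |(κ : ℝ)| * ((⌈q⌉₊ : ℝ) / n) := by ring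
    · calc |(κ : ℝ)| * ((⌈q⌉₊ : ℝ) / n) = |(κ : ℝ)| * (⌈q⌉₊ : ℝ) / n := by ring
        _ ≤ |(κ : ℝ)| * (q + 1) / n :=
          div_le_div_of_nonneg_right (mul_le_mul_of_nonneg_left ha2.le hk0.le) hn0.le
        _ = |(κ : ℝ)| * q / n + |(κ : ℝ)| / n := by ring
        _ ≤ 3 / 4 := by
          rw [h7]
          have h8 : |(κ : ℝ)| / n ≤ 1 / 2 := by
            rw [div_le_iff₀ hn0]
            linarith
          linarith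

theorem part3 (n : ℕ) (κ : ℤ) (δ : ℝ) (hδ : 0 < δ) (hδ2 : δ ≤ 1 / 2) (h8 : 8 ≤ δ * n)
    (h0 : κ ≠ 0) (h1 : -(n : ℤ) < 2 * κ) (h2 : 2 * κ ≤ n) :
    ∃ a : ℕ, a < n ∧ ‖((((a : ℝ) / (n : ℝ)) : ℝ) : TT)‖ ≤ δ ∧
      δ / 2 ≤ ‖κ • ((((a : ℝ) / (n : ℝ)) : ℝ) : TT)‖ := by
  have hk1 : (1 : ℝ) ≤ |(κ : ℝ)| := by
    have : (1 : ℤ) ≤ |κ| := Int.one_le_abs h0
    exact_mod_cast this
  have hn0 : (0 : ℝ) < (n : ℝ) := by
    by_contra h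
    have : (n : ℝ) = 0 := le_antisymm (not_lt.1 h) (Nat.cast_nonneg n)
    rw [this, mul_zero] at h8
    linarith
  have hn16 : (16 : ℝ) ≤ (n : ℝ) := by nlinarith
  rcases le_or_gt (|(κ : ℝ)| * δ) (1 / 2) with hc | hc
  · have hx0 : 0 ≤ δ * n := by linarith
    have ha1 : (⌊δ * n⌋₊ : ℝ) ≤ δ * n := Nat.floor_le hx0
    have ha2 : δ * n < (⌊δ * n⌋₊ : ℝ) + 1 := Nat.lt_floor_add_one _
    have ha3 : (⌊δ * n⌋₊ : ℝ) / n ≤ δ := by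
      rw [div_le_iff₀ hn0]
      exact ha1
    have ha4 : δ / 2 ≤ (⌊δ * n⌋₊ : ℝ) / n := by
      rw [le_div_iff₀ hn0]
      linarith
    have ha0 : 0 ≤ (⌊δ * n⌋₊ : ℝ) / n := by positivity
    refine ⟨⌊δ * n⌋₊, ?_, ?_, ?_⟩
    · have h5 : (⌊δ * n⌋₊ : ℝ) < (n : ℝ) := by nlinarith
      exact_mod_cast h5
    · rw [n1 _ ha0 (by linarith)]
      exact ha3
    · rw [kap, n1 _ (by positivity) (by nlinarith)]
      nlinarith
  · obtain ⟨a, h3, h4, h5⟩ := part4 n κ (by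
      have : (2 : ℝ) ≤ (n : ℝ) := by linarith
      exact_mod_cast this) h0 h1 h2
    have h6 : 1 / (4 * |(κ : ℝ)|) ≤ δ / 2 := by
      rw [div_le_iff₀ (by positivity)]
      nlinarith
    have h7 : 1 / (n : ℝ) ≤ δ / 8 := by
      rw [div_le_iff₀ hn0]
      linarith
    refine ⟨a, h3, ?_, by linarith⟩
    have h9 := n3 ((a : ℝ) / n)
    rw [abs_of_nonneg (by positivity)] at h9
    linarith

theorem cir : S_CIR := by
  refine ⟨?_, ?_, ?_, ?_, ?_⟩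
  · intro y hy
    by_contra h0
    have hpos : 0 < ‖y‖ := norm_pos_iff.2 h0
    obtain ⟨M, hM⟩ := exists_nat_gt ((1 / 4) / ‖y‖)
    rw [div_lt_iff₀ hpos] at hM
    obtain ⟨m, _, _, h3⟩ := mult y M hM.le
    exact absurd (hy m) (not_lt.2 h3)
  · intro y m0 hm0 hy
    by_contra h0
    rw [not_le] at h0
    have hm : (0 : ℝ) < (m0 : ℝ) := by exact_mod_cast hm0
    have hM : 1 / 4 ≤ (m0 : ℝ) * ‖y‖ := by
      rw [div_lt_iff₀ (by positivity)] at h0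
      nlinarith
    obtain ⟨m, h1, h2, h3⟩ := mult y m0 hM
    exact absurd (hy m h1 h2) (not_lt.2 h3)
  · intro n κ δ h1 h2 h3 h4 h5 h6
    exact part3 n κ δ h1 h2 h3 h4 h5 h6
  · intro n κ hn h0 h1 h2
    obtain ⟨a, h3, h4, h5⟩ := part4 n κ hn h0 h1 h2
    refine ⟨a, h3, ?_, h5⟩
    have h9 := n3 ((a : ℝ) / n)
    rw [abs_of_nonneg (by positivity)] at h9
    linarith
  · intro n y hn hy
    exact part5 n y hn hy

end Pool.Agent.W565.RP.Cir
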